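import Pool.Agent.Lib.MP_defcf3_al.BR.StageI

/-!
Project BR7, stage 2, module DEGSEVEN: central simple algebras of dimension 49.
-/

namespace BR7.H79

universe u

theorem degseven : DegSevenStatement.{u} := by
  intro F _ A _ _ _ _ h49
  have hfd : FiniteDimensional F A := Module.finite_of_finrank_pos (by omega)
  have hart : IsArtinianRing A := IsArtinianRing.of_finite F A
  obtain ⟨n, hn, D, _, _, hD, ⟨e⟩⟩ := IsSimpleRing.exists_algEquiv_matrix_divisionRing_finite F A
  have h1 := e.toLinearEquiv.finrank_eq
  rw [h49, Module.finrank_matrix, Fintype.card_fin] at h1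
  have h2 : n ∣ 7 ^ 2 := ⟨n * Module.finrank F D, by rw [← mul_assoc]; exact h1⟩
  obtain ⟨k, hk, hk'⟩ := (Nat.dvd_prime_pow (by norm_num)).1 h2
  interval_cases k
  · -- a division algebra
    right
    rw [pow_zero] at hk'
    subst hk'
    intro a ha
    have h3 : e a ≠ 0 := fun h => ha (by simpa using h)
    have h4 : e a 0 0 ≠ 0 := by
      intro h
      refine h3 ?_
      ext i j
      rw [Subsingleton.elim i 0, Subsingleton.elim j 0, h]
      rfl
    have h5 : IsUnit (e a) := by
      refine ⟨⟨e a, fun _ _ => (e a 0 0)⁻¹, ?_, ?_⟩, rfl⟩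
      · ext i j
        rw [Subsingleton.elim i 0, Subsingleton.elim j 0, Matrix.mul_apply]
        simp [mul_inv_cancel₀ h4]
      · ext i j
        rw [Subsingleton.elim i 0, Subsingleton.elim j 0, Matrix.mul_apply]
        simp [inv_mul_cancel₀ h4]
    exact (isUnit_map_iff e a).1 h5
  · -- split
    left
    rw [pow_one] at hk'
    subst hk'
    have h3 : Module.finrank F D = 1 := by omega
    have h4 : (⊥ : Subalgebra F D) = ⊤ := Subalgebra.bot_eq_top_of_finrank_eq_one h3
    let φ : D ≃ₐ[F] F := (Subalgebra.topEquiv.symm.trans (Subalgebra.equivOfEq _ _ h4.symm)).trans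
      (Algebra.botEquiv F D)
    exact ⟨e.trans φ.mapMatrix⟩
  · exfalso
    subst hk'
    omega

end BR7.H79
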