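import Pool.Agent.Lib.MP_defcf3_al.BR.StageI
import Pool.Agent.Lib.MP_defcf3_al.BR.H4.Dlog

/-!
Project BR7, stage 2, module FACTOR: a continuous cocycle comes from a finite quotient.
-/

open Topology

namespace BR7.H79

universe u

/-- Local data at a point. -/
theorem factor_local {F Ω : Type u} [Field F] [Field Ω] [Algebra F Ω] [IsGalois F Ω]
    (f : (Ω ≃ₐ[F] Ω) → (Ω ≃ₐ[F] Ω) → Ωˣ)
    (hlc : IsLocallyConstant (fun p : (Ω ≃ₐ[F] Ω) × (Ω ≃ₐ[F] Ω) => f p.1 p.2))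
    (p : (Ω ≃ₐ[F] Ω) × (Ω ≃ₐ[F] Ω)) :
    ∃ N : Subgroup (Ω ≃ₐ[F] Ω), N.Normal ∧ IsOpen (N : Set (Ω ≃ₐ[F] Ω)) ∧
      (∀ n ∈ N, ∀ m ∈ N, f (p.1 * n) (p.2 * m) = f p.1 p.2) ∧ (∀ n ∈ N, n • f p.1 p.2 = f p.1 p.2) := by
  obtain ⟨U, hU, hpU, hc⟩ := (IsLocallyConstant.iff_exists_open _).1 hlc p
  have hcont : Continuous (fun q : (Ω ≃ₐ[F] Ω) × (Ω ≃ₐ[F] Ω) => (p.1 * q.1, p.2 * q.2)) := by
    fun_prop
  have h1 : (fun q : (Ω ≃ₐ[F] Ω) × (Ω ≃ₐ[F] Ω) => (p.1 * q.1, p.2 * q.2)) ⁻¹' U ∈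
      𝓝 ((1 : Ω ≃ₐ[F] Ω), (1 : Ω ≃ₐ[F] Ω)) := by
    refine (hU.preimage hcont).mem_nhds ?_
    simpa using hpU
  rw [nhds_prod_eq, Filter.mem_prod_iff] at h1
  obtain ⟨S1, hS1, S2, hS2, hS⟩ := h1
  have hS3 : {n : Ω ≃ₐ[F] Ω | n • f p.1 p.2 = f p.1 p.2} ∈ 𝓝 (1 : Ω ≃ₐ[F] Ω) :=
    (H4.disc F Ω (f p.1 p.2)).mem_nhds (one_smul _ _)
  obtain ⟨E, hE1, hE2, hE3⟩ := (krullTopology_mem_nhds_one_iff_of_normal F Ω _).1
    (Filter.inter_mem (Filter.inter_mem hS1 hS2) hS3)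
  refine ⟨E.fixingSubgroup, ?_, E.fixingSubgroup_isOpen, ?_, ?_⟩
  · rw [← IntermediateField.restrictNormalHom_ker]
    infer_instance
  · intro n hn m hm
    exact hc (p.1 * n, p.2 * m) (hS (Set.mk_mem_prod (hE3 hn).1.1 (hE3 hm).1.2))
  · intro n hn
    exact (hE3 hn).2

theorem factor : FactorStatement.{u} := by
  intro F Ω _ _ _ _ f hf
  choose N hN hNo hNc hNs using factor_local f hf.1
  have hnb : ∀ p : (Ω ≃ₐ[F] Ω) × (Ω ≃ₐ[F] Ω),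
      {q : (Ω ≃ₐ[F] Ω) × (Ω ≃ₐ[F] Ω) | p.1⁻¹ * q.1 ∈ N p ∧ p.2⁻¹ * q.2 ∈ N p} ∈ 𝓝 p := by
    intro p
    have hc1 : Continuous (fun q : (Ω ≃ₐ[F] Ω) × (Ω ≃ₐ[F] Ω) => p.1⁻¹ * q.1) := by fun_prop
    have hc2 : Continuous (fun q : (Ω ≃ₐ[F] Ω) × (Ω ≃ₐ[F] Ω) => p.2⁻¹ * q.2) := by fun_prop
    refine (((hNo p).preimage hc1).inter ((hNo p).preimage hc2)).mem_nhds ?_
    simp [one_mem]
  obtain ⟨t, -, ht⟩ := isCompact_univ.elim_nhds_subcover _ (fun p _ => hnb p)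
  refine ⟨⨅ p ∈ t, N p, ?_, ?_, ?_⟩
  · exact Subgroup.normal_iInf_normal fun p => Subgroup.normal_iInf_normal fun _ => hN p
  · rw [Subgroup.coe_iInf]
    simp only [Subgroup.coe_iInf]
    exact isOpen_biInter_finset fun p _ => hNo p
  · intro g h n hn
    have h1 := ht (Set.mem_univ (g, h))
    simp only [Set.mem_iUnion] at h1
    obtain ⟨p, hp, hg, hh⟩ := h1
    have hnp : n ∈ N p := by
      simp only [Subgroup.mem_iInf] at hn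
      exact hn p hp
    have e1 : g = p.1 * (p.1⁻¹ * g) := by group
    have e2 : h = p.2 * (p.2⁻¹ * h) := by group
    have key : ∀ m m' : Ω ≃ₐ[F] Ω, m ∈ N p → m' ∈ N p → f (g * m) (h * m') = f p.1 p.2 := by
      intro m m' hm hm'
      have e3 : g * m = p.1 * ((p.1⁻¹ * g) * m) := by group
      have e4 : h * m' = p.2 * ((p.2⁻¹ * h) * m') := by group
      rw [e3, e4]
      exact hNc p _ ((N p).mul_mem hg hm) _ ((N p).mul_mem hh hm')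
    have k0 := key 1 1 (one_mem _) (one_mem _)
    have k1 := key n 1 hnp (one_mem _)
    have k2 := key 1 n (one_mem _) hnp
    rw [mul_one, mul_one] at k0
    rw [mul_one] at k1 k2
    refine ⟨k1.trans k0.symm, k2.trans k0.symm, ?_⟩
    rw [k0]
    exact hNs p n hnp

end BR7.H79
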