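import Pool.Agent.Lib.MP_defcf3_al.BR.StageI

/-!
Project BR7, stage 2, module REPCSA: algebras with splitting data are central simple.
-/

namespace BR7.H79

universe u v

variable {F Ω : Type u} [Field F] [Field Ω] [Algebra F Ω] {A : Type u} [Ring A] [Algebra F A]
  {n : Type v} [Fintype n] [DecidableEq n]

omit [Fintype n] [DecidableEq n] in
/-- F-scalars act through Ω. -/
theorem smul_eq (c : F) (M : Matrix n n Ω) : c • M = (algebraMap F Ω c) • M := by
  ext i j
  simp [Algebra.smul_def]

/-- The image of an F-spanning family of a submodule spans the image. -/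
theorem image_le_span (ι : A →ₐ[F] Matrix n n Ω) {κ : Type*} [Fintype κ] (w : κ → A) (a : A)
    (x : κ → F) (ha : a = ∑ i, x i • w i) : ι a ∈ Submodule.span Ω (Set.range fun i => ι (w i)) := by
  rw [ha, map_sum]
  refine Submodule.sum_mem _ fun i _ => ?_
  rw [map_smul, smul_eq]
  exact Submodule.smul_mem _ _ (Submodule.subset_span ⟨i, rfl⟩)

theorem span_basis (ι : A →ₐ[F] Matrix n n Ω) (hspan : Submodule.span Ω (Set.range ι) = ⊤)
    {κ : Type*} [Fintype κ] (b : Module.Basis κ F A) :
    (⊤ : Submodule Ω (Matrix n n Ω)) ≤ Submodule.span Ω (Set.range fun i => ι (b i)) := by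
  rw [← hspan, Submodule.span_le]
  rintro _ ⟨a, rfl⟩
  exact image_le_span ι b a (fun i => b.repr a i) (b.sum_repr a).symm

theorem li_basis (ι : A →ₐ[F] Matrix n n Ω) (hdim : Module.finrank F A = Fintype.card n ^ 2)
    (hspan : Submodule.span Ω (Set.range ι) = ⊤)
    {κ : Type*} [Fintype κ] (b : Module.Basis κ F A) :
    LinearIndependent Ω (fun i => ι (b i)) := by
  refine linearIndependent_of_top_le_span_of_card_eq_finrank (span_basis ι hspan b) ?_
  rw [← Module.finrank_eq_card_basis b, hdim, Module.finrank_matrix]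
  simp [sq]

/-- Coordinates of elements with proportional images. -/
theorem coord (ι : A →ₐ[F] Matrix n n Ω) (hdim : Module.finrank F A = Fintype.card n ^ 2)
    (hspan : Submodule.span Ω (Set.range ι) = ⊤)
    {κ : Type*} [Fintype κ] (b : Module.Basis κ F A) (y z : A) (c : Ω) (h : ι z = c • ι y) (i : κ) :
    algebraMap F Ω (b.repr z i) = c * algebraMap F Ω (b.repr y i) := by
  have hli := li_basis ι hdim hspan b
  have hz : ι z = ∑ i, algebraMap F Ω (b.repr z i) • ι (b i) := by
    conv_lhs => rw [← b.sum_repr z, map_sum]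
    exact Finset.sum_congr rfl fun i _ => by rw [map_smul, smul_eq]
  have hy : ι y = ∑ i, algebraMap F Ω (b.repr y i) • ι (b i) := by
    conv_lhs => rw [← b.sum_repr y, map_sum]
    exact Finset.sum_congr rfl fun i _ => by rw [map_smul, smul_eq]
  have h0 : ∑ i, (algebraMap F Ω (b.repr z i) - c * algebraMap F Ω (b.repr y i)) • ι (b i) = 0 := by
    simp only [sub_smul, Finset.sum_sub_distrib, mul_smul, ← Finset.smul_sum]
    rw [← hz, ← hy, h, sub_self]
  exact sub_eq_zero.1 (Fintype.linearIndependent_iff.1 hli _ h0 i)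

theorem inj (ι : A →ₐ[F] Matrix n n Ω) (hdim : Module.finrank F A = Fintype.card n ^ 2)
    (hspan : Submodule.span Ω (Set.range ι) = ⊤) [FiniteDimensional F A] :
    Function.Injective ι := by
  rw [injective_iff_map_eq_zero]
  intro z hz
  have b := Module.finBasis F A
  refine b.ext_elem fun i => ?_
  have h := coord ι hdim hspan b 0 z 0 (by rw [hz, zero_smul]) i
  rw [zero_mul, map_eq_zero] at h
  rw [h]
  simp

/-- The submodule of a two-sided ideal. -/
def idl (I : TwoSidedIdeal A) : Submodule F A where
  carrier := {a | a ∈ I}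
  add_mem' := fun h h' => I.add_mem h h'
  zero_mem' := I.zero_mem
  smul_mem' := fun c x h => by
    show c • x ∈ I
    rw [Algebra.smul_def]
    exact I.mul_mem_left _ _ h

theorem mem_idl (I : TwoSidedIdeal A) (a : A) : a ∈ idl (F := F) I ↔ a ∈ I := Iff.rfl

theorem span_mul_left (ι : A →ₐ[F] Matrix n n Ω) (hspan : Submodule.span Ω (Set.range ι) = ⊤)
    (I : TwoSidedIdeal A) (M N : Matrix n n Ω) (hN : N ∈ Submodule.span Ω (ι '' {a | a ∈ I})) :
    M * N ∈ Submodule.span Ω (ι '' {a | a ∈ I}) := by
  have hM : M ∈ Submodule.span Ω (Set.range ι) := by rw [hspan]; trivial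
  induction hN using Submodule.span_induction with
  | zero => rw [mul_zero]; exact Submodule.zero_mem _
  | add x y _ _ hx hy => rw [mul_add]; exact Submodule.add_mem _ hx hy
  | smul c x _ hx => rw [mul_smul_comm]; exact Submodule.smul_mem _ _ hx
  | mem x hx =>
    obtain ⟨a, ha, rfl⟩ := hx
    induction hM using Submodule.span_induction with
    | zero => rw [zero_mul]; exact Submodule.zero_mem _
    | add x y _ _ hx hy => rw [add_mul]; exact Submodule.add_mem _ hx hy
    | smul c x _ hx => rw [smul_mul_assoc]; exact Submodule.smul_mem _ _ hx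
    | mem x hx =>
      obtain ⟨b, rfl⟩ := hx
      rw [← map_mul]
      exact Submodule.subset_span ⟨b * a, I.mul_mem_left _ _ ha, rfl⟩

theorem span_mul_right (ι : A →ₐ[F] Matrix n n Ω) (hspan : Submodule.span Ω (Set.range ι) = ⊤)
    (I : TwoSidedIdeal A) (M N : Matrix n n Ω) (hN : N ∈ Submodule.span Ω (ι '' {a | a ∈ I})) :
    N * M ∈ Submodule.span Ω (ι '' {a | a ∈ I}) := by
  have hM : M ∈ Submodule.span Ω (Set.range ι) := by rw [hspan]; trivial
  induction hN using Submodule.span_induction with
  | zero => rw [zero_mul]; exact Submodule.zero_mem _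
  | add x y _ _ hx hy => rw [add_mul]; exact Submodule.add_mem _ hx hy
  | smul c x _ hx => rw [smul_mul_assoc]; exact Submodule.smul_mem _ _ hx
  | mem x hx =>
    obtain ⟨a, ha, rfl⟩ := hx
    induction hM using Submodule.span_induction with
    | zero => rw [mul_zero]; exact Submodule.zero_mem _
    | add x y _ _ hx hy => rw [mul_add]; exact Submodule.add_mem _ hx hy
    | smul c x _ hx => rw [mul_smul_comm]; exact Submodule.smul_mem _ _ hx
    | mem x hx =>
      obtain ⟨b, rfl⟩ := hx
      rw [← map_mul]
      exact Submodule.subset_span ⟨a * b, I.mul_mem_right _ _ ha, rfl⟩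

theorem ideal_top (ι : A →ₐ[F] Matrix n n Ω) (hne : Nonempty n)
    (hdim : Module.finrank F A = Fintype.card n ^ 2)
    (hspan : Submodule.span Ω (Set.range ι) = ⊤) [FiniteDimensional F A] (I : TwoSidedIdeal A)
    (x : A) (hx : x ∈ I) (hx0 : x ≠ 0) (y : A) : y ∈ I := by
  classical
  set J : Submodule Ω (Matrix n n Ω) := Submodule.span Ω (ι '' {a | a ∈ I}) with hJ
  let K : TwoSidedIdeal (Matrix n n Ω) := TwoSidedIdeal.mk' (J : Set (Matrix n n Ω)) J.zero_mem
    (fun h h' => J.add_mem h h') (fun h => J.neg_mem h)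
    (fun h => span_mul_left ι hspan I _ _ h) (fun h => span_mul_right ι hspan I _ _ h)
  have hK : ∀ M, M ∈ K ↔ M ∈ J := fun M => by
    show M ∈ TwoSidedIdeal.mk' _ _ _ _ _ _ ↔ _
    rw [TwoSidedIdeal.mem_mk']
    rfl
  have h1 : (1 : Matrix n n Ω) ∈ J := by
    rw [← hK]
    refine IsSimpleRing.one_mem_of_ne_zero_mem K (x := ι x) ?_ ?_
    · intro h
      exact hx0 ((injective_iff_map_eq_zero ι).1 (inj ι hdim hspan) x h)
    · rw [hK]
      exact Submodule.subset_span ⟨x, hx, rfl⟩
  have htop : (⊤ : Submodule Ω (Matrix n n Ω)) ≤ J := fun M _ => by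
    have := span_mul_left ι hspan I M 1 h1
    rwa [mul_one] at this
  -- dimension count
  let b := Module.finBasis F (idl (F := F) I)
  have hle : J ≤ Submodule.span Ω (Set.range fun i => ι (b i)) := by
    rw [hJ, Submodule.span_le]
    rintro _ ⟨a, ha, rfl⟩
    refine image_le_span ι (fun i => (b i : A)) a (fun i => b.repr ⟨a, ha⟩ i) ?_
    have := congrArg (fun t : idl (F := F) I => (t : A)) (b.sum_repr ⟨a, ha⟩)
    simp only [Submodule.coe_sum, Submodule.coe_smul] at this
    exact this.symm
  have hfr : Module.finrank F A ≤ Module.finrank F (idl (F := F) I) := by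
    have h2 : Module.finrank Ω (Matrix n n Ω) ≤ Module.finrank F (idl (F := F) I) := by
      have h3 := finrank_range_le_card (R := Ω) (fun i => ι (b i))
      rw [Set.finrank, top_le_iff.1 (htop.trans hle), finrank_top, Fintype.card_fin] at h3
      exact h3
    rw [Module.finrank_matrix] at h2
    rw [hdim]
    simpa [sq] using h2
  have h4 : idl (F := F) I = ⊤ := Submodule.eq_top_of_finrank_eq
    (le_antisymm (Submodule.finrank_le _) hfr)
  rw [← mem_idl (F := F), h4]
  trivial

theorem repcsa : RepCSAStatement.{u, v} := by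
  intro F Ω _ _ _ _ A _ _ n _ _ f d
  obtain ⟨ι, -, hne, hdim, hspan, -, -, -⟩ := d
  have hpos : 0 < Module.finrank F A := by
    rw [hdim]
    exact pow_pos Fintype.card_pos 2
  have : FiniteDimensional F A := Module.finite_of_finrank_pos hpos
  have : Nontrivial A := Module.nontrivial_of_finrank_pos hpos
  have hinj := inj ι hdim hspan
  refine ⟨⟨?_⟩, ?_, inferInstance⟩
  · intro z hz
    rw [Subalgebra.mem_center_iff] at hz
    have hc : ι z ∈ Subalgebra.center Ω (Matrix n n Ω) := by
      rw [Subalgebra.mem_center_iff]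
      intro M
      have hM : M ∈ Submodule.span Ω (Set.range ι) := by rw [hspan]; trivial
      induction hM using Submodule.span_induction with
      | zero => rw [zero_mul, mul_zero]
      | add x y _ _ hx hy => rw [add_mul, mul_add, hx, hy]
      | smul c x _ hx => rw [smul_mul_assoc, mul_smul_comm, hx]
      | mem x hx =>
        obtain ⟨b, rfl⟩ := hx
        rw [← map_mul, ← map_mul, hz]
    rw [Algebra.IsCentral.center_eq_bot, Algebra.mem_bot] at hc
    obtain ⟨c, hc⟩ := hc
    have hc' : ι z = c • ι 1 := by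
      rw [map_one, ← hc, Algebra.algebraMap_eq_smul_one]
    let b := Module.finBasis F A
    obtain ⟨j, hj⟩ : ∃ j, b.repr 1 j ≠ 0 := by
      by_contra hcon
      push Not at hcon
      exact one_ne_zero (b.ext_elem (x := (1 : A)) (y := 0) fun i => by rw [hcon i]; simp)
    have hcj := coord ι hdim hspan b 1 z c hc' j
    have hcF : c = algebraMap F Ω (b.repr z j / b.repr 1 j) := by
      rw [map_div₀, eq_div_iff (by simpa using hj), hcj]
    rw [Algebra.mem_bot]
    generalize b.repr z j / b.repr 1 j = q at hcF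
    refine ⟨q, hinj ?_⟩
    rw [hc', Algebra.algebraMap_eq_smul_one, map_smul, map_one, smul_eq, ← hcF]
  · refine IsSimpleRing.of_eq_bot_or_eq_top fun I => ?_
    by_cases h : I = ⊥
    · exact Or.inl h
    · right
      obtain ⟨x, hx, hx0⟩ : ∃ x ∈ I, x ≠ 0 := by
        by_contra hcon
        push Not at hcon
        refine h (le_bot_iff.1 fun x hx => ?_)
        rw [hcon x hx]
        exact TwoSidedIdeal.zero_mem _
      refine top_le_iff.1 fun y _ => ideal_top ι hne hdim hspan I x hx hx0 y

end BR7.H79
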